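import Pool.Agent.Helper576_GD4.Main

set_option autoImplicit false

open CategoryTheory

namespace Pool.Agent.Results.MP_95d09c_al.GldimFour

/-- Every left and right noetherian local ring of (left and right) global dimension at most four is
a domain. -/
theorem result :
    ∀ (R : Type) [Ring R], IsLocalRing R → IsNoetherianRing R → IsNoetherianRing Rᵐᵒᵖ →
      (∀ M : ModuleCat.{0} R, ∃ (P : ℕ → ModuleCat.{0} R)
          (d : ∀ i : ℕ, P (i + 1) ⟶ P i) (ε : P 0 ⟶ M),
          (∀ i, Module.Projective R (P i)) ∧ Function.Surjective ε.hom ∧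
          LinearMap.range (d 0).hom = LinearMap.ker ε.hom ∧
          (∀ i, LinearMap.range (d (i + 1)).hom = LinearMap.ker (d i).hom) ∧
          (∀ i, 4 < i → Subsingleton (P i))) →
      (∀ M : ModuleCat.{0} Rᵐᵒᵖ, ∃ (P : ℕ → ModuleCat.{0} Rᵐᵒᵖ)
          (d : ∀ i : ℕ, P (i + 1) ⟶ P i) (ε : P 0 ⟶ M),
          (∀ i, Module.Projective Rᵐᵒᵖ (P i)) ∧ Function.Surjective ε.hom ∧
          LinearMap.range (d 0).hom = LinearMap.ker ε.hom ∧
          (∀ i, LinearMap.range (d (i + 1)).hom = LinearMap.ker (d i).hom) ∧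
          (∀ i, 4 < i → Subsingleton (P i))) →
      IsDomain R := by
  intro R _ hloc hn hnop hl hr
  have hmain := GD4.main (R := R)
    (fun M _ _ => GD4.pd_of_resolution 4 (ModuleCat.of R M) (hl (ModuleCat.of R M)))
    (fun M _ _ => GD4.pd_of_resolution 4 (ModuleCat.of Rᵐᵒᵖ M) (hr (ModuleCat.of Rᵐᵒᵖ M)))
  have hnz : NoZeroDivisors R := ⟨fun {a b} h => hmain a b h⟩
  have hnt : Nontrivial R := hloc.toNontrivial
  exact NoZeroDivisors.to_isDomain R

end Pool.Agent.Results.MP_95d09c_al.GldimFour
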